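import Pool.Agent.E8helper30.TD.Cases
import Pool.Agent.E8helper30.TD.Latq
import Pool.Agent.E8helper91.TD.Gen
import Pool.Agent.E8helper90.TD.LAT
import Pool.Agent.E8helper40.TD.Dim
import Pool.Agent.E8helper54.TD.Rad
import Pool.Agent.E8helper79.TD.Neg
import Pool.Agent.E8helper8.TD.Hole

/-!
# Covering the triangular lattice by non-overlapping unit disks

`T d` is the triangular lattice with minimal distance `d`, in `ℂ`. `Coverable d` says that there is a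
countable set `S` of centres such that the closed unit disks with these centres have pairwise disjoint
interiors and cover all points of `T d`.
-/

set_option autoImplicit false

namespace Pool.Agent.Results.MP_962d12_co.CoverableH30

/-- the triangular lattice `{d (a + b ω)}`, `ω = e^{iπ/3}` -/
def T (d : ℝ) : Set ℂ :=
  {z | ∃ a b : ℤ, z = d * (a + b * Complex.exp (Complex.I * (Real.pi / 3)))}

/-- `T d` is covered by countably many closed unit disks with pairwise disjoint interiors -/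
def Coverable (d : ℝ) : Prop := ∃ S : Set ℂ, S.Countable ∧
  (∀ x ∈ S, ∀ y ∈ S, x ≠ y →
    Disjoint (interior (Metric.closedBall x 1)) (interior (Metric.closedBall y 1))) ∧
  T d ⊆ ⋃ x ∈ S, Metric.closedBall x 1

theorem coverable_iff (d : ℝ) : Coverable d ↔ Pool.Agent.E8helper30.TD.Coverable d := Iff.rfl

open Pool.Agent.E8helper30.TD

theorem cov (hGEN : S_GEN) {M A B : ℤ} (h : S_CTR M A B) (hM : 0 < M) {d : ℝ} (hd : 0 < d)
    (h1 : A * d ^ 2 ≤ M ^ 2) (h2 : 4 * (M : ℝ) ^ 2 ≤ B * d ^ 2) : Coverable d :=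
  (coverable_iff d).2 (hGEN M A B d hM hd h h1 h2)

theorem pos_part (hGEN : S_GEN) (hLAT : S_LAT) (hDIM : S_DIM) (d : ℝ) (hd : 0 < d)
    (h : 16 / 31 ≤ d ^ 2 ∨ (16 / 37 ≤ d ^ 2 ∧ d ^ 2 ≤ 25 / 49) ∨ (4 / 13 ≤ d ^ 2 ∧ d ^ 2 ≤ 3 / 7) ∨
      (4 / 19 ≤ d ^ 2 ∧ d ^ 2 ≤ 25 / 91) ∨ d ^ 2 = 4 / 21 ∨ (4 / 27 ≤ d ^ 2 ∧ d ^ 2 ≤ 3 / 19) ∨
      (4 / 31 ≤ d ^ 2 ∧ d ^ 2 ≤ 1 / 7) ∨ (4 / 37 ≤ d ^ 2 ∧ d ^ 2 ≤ 1 / 9) ∨ d ^ 2 = 1 / 13) :
    Coverable d := by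
  rcases h with h | ⟨h, h'⟩ | ⟨h, h'⟩ | ⟨h, h'⟩ | h | ⟨h, h'⟩ | ⟨h, h'⟩ | ⟨h, h'⟩ | h
  · rcases le_total (d ^ 2) (4 / 7) with h0 | h0
    · exact cov hGEN ctrq31 (by norm_num) hd (by push_cast; linarith) (by push_cast; linarith)
    rcases le_total (d ^ 2) 1 with h1 | h1
    · exact cov hGEN (ctr7 hLAT) (by norm_num) hd (by push_cast; linarith) (by push_cast; linarith)
    rcases le_total (d ^ 2) (4 / 3) with h2 | h2
    · exact cov hGEN (ctr4 hLAT) (by norm_num) hd (by push_cast; linarith) (by push_cast; linarith)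
    rcases le_total (d ^ 2) 3 with h3 | h3
    · exact cov hGEN (ctr3 hLAT) (by norm_num) hd (by push_cast; linarith) (by push_cast; linarith)
    rcases le_total (d ^ 2) 4 with h4 | h4
    · exact cov hGEN hDIM (by norm_num) hd (by push_cast; linarith) (by push_cast; linarith)
    · exact cov hGEN (ctr1 hLAT) (by norm_num) hd (by push_cast; linarith) (by push_cast; linarith)
  · rcases le_total (d ^ 2) (4 / 9) with h1 | h1
    · exact cov hGEN ctrq37 (by norm_num) hd (by push_cast; linarith) (by push_cast; linarith)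
    · exact cov hGEN (ctr9 hLAT) (by norm_num) hd (by push_cast; linarith) (by push_cast; linarith)
  · rcases le_total (d ^ 2) (1 / 3) with h1 | h1
    · exact cov hGEN (ctr13 hLAT) (by norm_num) hd (by push_cast; linarith) (by push_cast; linarith)
    · exact cov hGEN (ctr12 hLAT) (by norm_num) hd (by push_cast; linarith) (by push_cast; linarith)
  · rcases le_total (d ^ 2) (1 / 4) with h1 | h1
    · exact cov hGEN (ctr19 hLAT) (by norm_num) hd (by push_cast; linarith) (by push_cast; linarith)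
    · exact cov hGEN (ctr16 hLAT) (by norm_num) hd (by push_cast; linarith) (by push_cast; linarith)
  · exact cov hGEN (ctr21 hLAT) (by norm_num) hd (by push_cast; linarith) (by push_cast; linarith)
  · exact cov hGEN (ctr27 hLAT) (by norm_num) hd (by push_cast; linarith) (by push_cast; linarith)
  · exact cov hGEN (ctr31 hLAT) (by norm_num) hd (by push_cast; linarith) (by push_cast; linarith)
  · exact cov hGEN (ctr37 hLAT) (by norm_num) hd (by push_cast; linarith) (by push_cast; linarith)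
  · exact cov hGEN (ctr52 hLAT) (by norm_num) hd (by push_cast; linarith) (by push_cast; linarith)

theorem main (hGEN : S_GEN) (hLAT : S_LAT) (hDIM : S_DIM) (hNEG : S_NEG) (d : ℝ) (hd : 0 < d) :
    ((16 / 31 ≤ d ^ 2 ∨ (16 / 37 ≤ d ^ 2 ∧ d ^ 2 ≤ 25 / 49) ∨ (4 / 13 ≤ d ^ 2 ∧ d ^ 2 ≤ 3 / 7) ∨
      (4 / 19 ≤ d ^ 2 ∧ d ^ 2 ≤ 25 / 91) ∨ d ^ 2 = 4 / 21 ∨ (4 / 27 ≤ d ^ 2 ∧ d ^ 2 ≤ 3 / 19) ∨
      (4 / 31 ≤ d ^ 2 ∧ d ^ 2 ≤ 1 / 7) ∨ (4 / 37 ≤ d ^ 2 ∧ d ^ 2 ≤ 1 / 9) ∨ d ^ 2 = 1 / 13) →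
      Coverable d) ∧
    (d < 2 - √3 → ¬ Coverable d) :=
  ⟨pos_part hGEN hLAT hDIM d hd, fun h => hNEG d hd h⟩

/-- **Theorem.** Let `d > 0`. `T d` is coverable if `d² ≥ 16/31` (that is `d ≥ 4/√31`), if `d²` lies in
one of `[16/37, 25/49]`, `[4/13, 3/7]`, `[4/19, 25/91]`, `[4/27, 3/19]`, `[4/31, 1/7]`, `[4/37, 1/9]`,
and if `d² = 4/21` or `d² = 1/13`. It is not coverable if `d < 2 - √3`. -/
theorem result (d : ℝ) (hd : 0 < d) :
    ((16 / 31 ≤ d ^ 2 ∨ (16 / 37 ≤ d ^ 2 ∧ d ^ 2 ≤ 25 / 49) ∨ (4 / 13 ≤ d ^ 2 ∧ d ^ 2 ≤ 3 / 7) ∨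
      (4 / 19 ≤ d ^ 2 ∧ d ^ 2 ≤ 25 / 91) ∨ d ^ 2 = 4 / 21 ∨ (4 / 27 ≤ d ^ 2 ∧ d ^ 2 ≤ 3 / 19) ∨
      (4 / 31 ≤ d ^ 2 ∧ d ^ 2 ≤ 1 / 7) ∨ (4 / 37 ≤ d ^ 2 ∧ d ^ 2 ≤ 1 / 9) ∨ d ^ 2 = 1 / 13) →
      Coverable d) ∧
    (d < 2 - √3 → ¬ Coverable d) :=
  main Pool.Agent.E8helper91.TD.t_GEN Pool.Agent.E8helper90.TD.t_LAT Pool.Agent.E8helper40.TD.t_DIM
    (Pool.Agent.E8helper79.TD.t_NEG Pool.Agent.E8helper54.TD.t_RAD Pool.Agent.E8helper8.TD.t_HOLE) d hd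

end Pool.Agent.Results.MP_962d12_co.CoverableH30
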